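import Pool.Agent.L5helper29.OFS.Stm

/-!
# Members of a family over a number field, for all primes `ℓ` at once: definition
-/

set_option autoImplicit false
set_option linter.all false

namespace Pool.Agent.L5helper29.OFL

open Matrix Polynomial NumberField Finset
open Pool.Agent.L5helper73.TC (Symp Coeff)
open Pool.Agent.L5helper29.AAS (weil rts rtsZ)
open Pool.Agent.L5helper29.OFS (Idx star Irr spec Eigen)

/-- Members of the family over the number field with Galois group `Γ` (those without additional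
endomorphisms: then the pieces are irreducible, by Faltings).  `Λ` is the set of all prime numbers `ℓ`
(each with an isomorphism of the algebraic closure of `ℚ_ℓ` and `ℂ`), or a subset of it: `ρ s ℓ` is the
`ℓ`-adic representation attached to the member `s`, with the polarization form `E s ℓ` and the pieces
`V s ℓ i`, and `χ ℓ` the cyclotomic character; `φ n` is a Frobenius element for the place number `n`, and
`ok n ℓ` means that `ℓ` is prime to this place; if `s` has the reduction `t ∈ S n`, then for all these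
`ℓ` the roots of the polynomials of `t` (which do not depend on `ℓ`) are eigenvalues of `φ n`. -/
structure Members {Γ : Type} [Group Γ] {Λ : Type} (χ : Λ → Γ →* ℂˣ) (φ : ℕ → Γ) (ok : ℕ → Λ → Prop)
    {K : Type} [Field K] [NumberField K] (τ : K →+* ℂ) (Q : ℕ → ℕ) {J J' : Type} [Fintype J]
    [DecidableEq J] [Fintype J'] [DecidableEq J'] (N : J → ℕ) (g : J' → ℕ) (S : ℕ → Type)
    (P : ∀ n, S n → J → (𝓞 K)[X]) (h : ∀ n, S n → J' → ℤ[X]) {𝒮 : Type}
    (red : ∀ n, 𝒮 → S n → Prop) {w : ℕ} (ρ : 𝒮 → Λ → Γ →* Matrix (Fin w) (Fin w) ℂ)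
    (E : 𝒮 → Λ → Matrix (Fin w) (Fin w) ℂ) (V : 𝒮 → Λ → Idx J J' → Matrix (Fin w) (Fin w) ℂ) :
    Prop where
  frob : ∀ n ℓ, ok n ℓ → (χ ℓ (φ n) : ℂ) = Q n
  symp : ∀ s ℓ, Symp (ρ s ℓ) (χ ℓ) (E s ℓ)
  coeff : ∀ s ℓ, Coeff (ρ s ℓ) (E s ℓ) star (V s ℓ)
  irr : ∀ s ℓ, Irr (ρ s ℓ) (V s ℓ)
  rank : ∀ s ℓ j b, (V s ℓ (Sum.inl (j, b))).rank = N j
  rank' : ∀ s ℓ i, (V s ℓ (Sum.inr i)).rank = 2 * g i
  eigen : ∀ n ℓ s t, ok n ℓ → red n s t → Eigen (V s ℓ) (ρ s ℓ (φ n))
    (spec (Q n) (fun j => rts τ (P n t j)) fun i => rtsZ (weil (Q n) (h n t i)))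

end Pool.Agent.L5helper29.OFL
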