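import Pool.Agent.L5helper29.OFS.Hundred
import Pool.Agent.L5helper29.OFL.Stm

/-!
# Almost all members of a family over a number field, for all primes `ℓ` at once
-/

set_option autoImplicit false
set_option linter.all false

namespace Pool.Agent.L5helper29.OFL

open Matrix Polynomial NumberField Finset
open Pool.Agent.L5helper73.TC (Symp Coeff ClassSystem detForm)
open Pool.Agent.L5helper19.TC (IsTateRel RelSystem OnlyTateLines)
open Pool.Agent.L5helper29.AA (share RelM GK)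
open Pool.Agent.L5helper29.AAS (proportion weil rts rtsZ)
open Pool.Agent.L5helper29.OF (St_EXTR St_IRRED St_GEN St_TORUS St_UNI St_BIL)
open Pool.Agent.L5helper29.OFS (Idx star Irr spec Eigen BigFamily Spread GeneratedFor one bigFamily)

/-- **Almost all members.** -/
theorem hundred (hEX : St_EXTR) (hIR : St_IRRED) (hGE : St_GEN) (hTO : St_TORUS) (hBI : St_BIL)
    (hUN : St_UNI)
    {K : Type} [Field K] [NumberField K] {τ : K →+* ℂ} {Q : ℕ → ℕ} {J J' : Type}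
    [Fintype J] [DecidableEq J] [Fintype J'] [DecidableEq J'] {N : J → ℕ} {g : J' → ℕ}
    {S : ℕ → Type} [∀ n, Fintype (S n)] {P : ∀ n, S n → J → (𝓞 K)[X]} {h : ∀ n, S n → J' → ℤ[X]}
    {δ : ℕ → J → 𝓞 K} {Γ : Type} [Group Γ] {Λ : Type} {χ : Λ → Γ →* ℂˣ} {φ : ℕ → Γ}
    {ok : ℕ → Λ → Prop} {𝒮 : Type}
    {red : ∀ n, 𝒮 → S n → Prop} {w : ℕ} {ρ : 𝒮 → Λ → Γ →* Matrix (Fin w) (Fin w) ℂ}
    {E : 𝒮 → Λ → Matrix (Fin w) (Fin w) ℂ} {V : 𝒮 → Λ → Idx J J' → Matrix (Fin w) (Fin w) ℂ}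
    {F : ℕ → Finset 𝒮}
    (hF : BigFamily τ Q N g S P h δ) (hM : Members χ φ ok τ Q N g S P h red ρ E V)
    (hsp : Spread S red F) (b₀ : ℕ) (ε : ℝ) (hε : 0 < ε) :
    ∃ n₀ : ℕ, ∀ n ≥ n₀, ∃ H₀ : ℕ, ∀ H ≥ H₀, ∀ B : Finset ℂ, B.card ≤ b₀ → (∀ z ∈ B, z ≠ 0) →
      (∀ σ : ℂ ≃+* ℂ, (∀ x, σ (τ x) = τ x) → ∀ z ∈ B, σ z ∈ B) →
      ({s | s ∈ F H ∧ ¬ ∀ ℓ, ok n ℓ →
        GeneratedFor (ρ s ℓ) (χ ℓ) (E s ℓ) (V s ℓ) (φ n) (Q n) B}.ncard : ℝ) ≤
        ε * (F H).card := by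
  classical
  obtain ⟨n₂, h2⟩ := hUN K τ Q J J' N g S P h δ (bigFamily hF) b₀ (ε / 2) (by positivity)
  obtain ⟨n₃, h3⟩ := hsp (ε / 2) (by positivity)
  refine ⟨max n₂ n₃, fun n hn => ?_⟩
  have hn2 : n₂ ≤ n := (le_max_left _ _).trans hn
  have hn3 : n₃ ≤ n := (le_max_right _ _).trans hn
  obtain ⟨hne, H₀, hH⟩ := h3 n hn3
  refine ⟨H₀, fun H hH0 B hBc hB0 hBσ => ?_⟩
  have hbad := h2 n hn2 B hBc hB0 (fun σ hσ => hBσ σ hσ.1)
  set D : Set (S n) := {s : S n | (Pool.Agent.L5helper29.OF.GalFam τ (Q n)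
        (fun j => Pool.Agent.L5helper29.AA.rts τ (P n s j))
        (fun i => Pool.Agent.L5helper29.AA.rtsZ (Pool.Agent.W521.Frob.weil (Q n) (h n s i))) ∧
        (∀ j, (Pool.Agent.L5helper29.AA.rts τ (P n s j)).card = N j) ∧
        (∀ i, (Pool.Agent.L5helper29.AA.rtsZ (Pool.Agent.W521.Frob.weil (Q n) (h n s i))).card =
          2 * g i) ∧
        RelM (Q n) (fun j => Pool.Agent.L5helper29.AA.rts τ (P n s j))
          (fun i => Pool.Agent.L5helper29.AA.rtsZ (Pool.Agent.W521.Frob.weil (Q n) (h n s i)))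
          B)} with hD
  have hcard : (D.ncard : ℝ) / (Nat.card (S n) : ℝ) ≥ 1 - ε / 2 := by
    have hpos : (0 : ℝ) < Nat.card (S n) := by exact_mod_cast Nat.card_pos
    have h4 : (D.ncard : ℝ) + (Dᶜ.ncard : ℝ) = Nat.card (S n) := by
      exact_mod_cast Set.ncard_add_ncard_compl D
    have h5 : (Dᶜ.ncard : ℝ) ≤ ε / 2 * Nat.card (S n) := hbad
    rw [ge_iff_le, le_div_iff₀ hpos]
    linarith
  have h6 := hH H hH0 D
  have hgen : ∀ s, (∃ t ∈ D, red n s t) → ∀ ℓ, ok n ℓ →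
      GeneratedFor (ρ s ℓ) (χ ℓ) (E s ℓ) (V s ℓ) (φ n) (Q n) B := by
    rintro s ⟨t, ⟨ht1, ht2, ht3, ht4⟩, hst⟩ ℓ hℓ
    have hQC : (Q n : ℂ) ≠ 0 := by
      have := hF.one_lt n
      exact_mod_cast (by omega : Q n ≠ 0)
    refine one hEX hIR hGE hTO hBI (hM.symp s ℓ) (hM.coeff s ℓ) (hM.irr s ℓ) (hF.one_lt n)
      (hM.frob n ℓ hℓ) ?_ (hM.eigen n ℓ s t hℓ hst) (fun i x hx => (ht1.blkS i).dual x hx) (fun j => ?_) hB0 ht4
    swap
    · exact (hF.three_le j).trans (ht2 j).symm.le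
    rintro (⟨j, b⟩ | i)
    · rw [hM.rank]
      cases b
      · change N j = ((rts τ (P n t j)).image fun x => (Q n : ℂ) / x).card
        rw [Finset.card_image_of_injOn]
        · exact (ht2 j).symm
        · intro x hx y hy hxy
          have hx0 : x ≠ 0 := (ht1.blk j).ne_zero x hx
          have hy0 : y ≠ 0 := (ht1.blk j).ne_zero y hy
          simp only at hxy
          rw [div_eq_div_iff hx0 hy0] at hxy
          exact (mul_left_cancel₀ hQC hxy).symm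
      · exact (ht2 j).symm
    · rw [hM.rank']
      exact (ht3 i).symm
  have h7 : ({s | s ∈ F H ∧ ∃ t ∈ D, red n s t}.ncard : ℝ) +
      ({s | s ∈ F H ∧ ¬ ∀ ℓ, ok n ℓ →
        GeneratedFor (ρ s ℓ) (χ ℓ) (E s ℓ) (V s ℓ) (φ n) (Q n) B}.ncard : ℝ) ≤ (F H).card := by
    have hdis : Disjoint {s | s ∈ F H ∧ ∃ t ∈ D, red n s t}
        {s | s ∈ F H ∧ ¬ ∀ ℓ, ok n ℓ →
        GeneratedFor (ρ s ℓ) (χ ℓ) (E s ℓ) (V s ℓ) (φ n) (Q n) B} := by
      rw [Set.disjoint_left]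
      rintro s ⟨-, h8⟩ ⟨-, h9⟩
      exact h9 (hgen s h8)
    have hfin1 : {s | s ∈ F H ∧ ∃ t ∈ D, red n s t}.Finite :=
      (F H).finite_toSet.subset fun s hs => hs.1
    have hfin2 : {s | s ∈ F H ∧ ¬ ∀ ℓ, ok n ℓ →
        GeneratedFor (ρ s ℓ) (χ ℓ) (E s ℓ) (V s ℓ) (φ n) (Q n) B}.Finite :=
      (F H).finite_toSet.subset fun s hs => hs.1
    have h8 := Set.ncard_union_eq hdis hfin1 hfin2
    have h9 : ({s | s ∈ F H ∧ ∃ t ∈ D, red n s t} ∪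
        {s | s ∈ F H ∧ ¬ ∀ ℓ, ok n ℓ →
        GeneratedFor (ρ s ℓ) (χ ℓ) (E s ℓ) (V s ℓ) (φ n) (Q n) B}).ncard ≤ ((F H : Set 𝒮)).ncard :=
      Set.ncard_le_ncard (by
        rintro s (hs | hs)
        · exact hs.1
        · exact hs.1) (F H).finite_toSet
    rw [Set.ncard_coe_finset] at h9
    rw [h8] at h9
    exact_mod_cast h9
  have hF0 : (0 : ℝ) ≤ (F H).card := Nat.cast_nonneg _
  nlinarith

end Pool.Agent.L5helper29.OFL
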